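import Mathlib
import Pool.Agent.U79.MO.SHT

/-!
# The average rank, and all moments of the rank and of `Ш[2]`, in families of quadratic twists

Let `(A, B)` be in the set `𝓕` of the problem, and let `e` be an integer with `e³ + A e + B = 0`, so that
`E = E_{A,B}` has the point `(e, 0)` of order two. Put `b = 3 e² + A` and `c = -(3 e² + 4 A)` and assume that
neither `b` nor `c` is a square: this says that `(e, 0)` is the only rational point of order two of `E`, and
that the isogenous curve also has only one. This is the general curve of `𝓕` with a rational point of order two.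

The twist of `E` by `D` is `E_{A D², B D³}`. A prime is split if it is `1` modulo `8` and a nonzero square
modulo all the odd primes dividing `3 b c`, and inert if it is not `2`, `3` and neither `b` nor `c` is a square
modulo it. The family: `D` runs over the products of different split and inert primes, any number of each, with
`D = 1` modulo `8` and `D` a square modulo all the odd primes dividing `3 b c`. All the `(A D², B D³)` are in `𝓕`,
of height `D⁶ H(E)`, and the curves are ordered by this height `H`, as in the problem.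

`s` is the Selmer rank of `E` for the descent by isogenies of degree two (`2 ^ (s + 2)` is the product of
the orders of the Selmer groups of `E` and of the isogenous curve), `dim Ш[2]` the dimension of the
`2`-torsion of the Tate-Shafarevich group over the field with two elements, and `C_k` the probability
`∏_{i ≥ 0} (1 - 2^{-(2i+1)}) / ∏_{1 ≤ i ≤ k} (2 ^ i - 1)`, `k = 0, 1, 2, ...` (the sum of all the `C_k` is `1`).

**Theorem.** For every nondecreasing function `φ` of polynomial growth the mean of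
`φ (rank + dim Ш[2])` over the curves of the family of height at most `X` is for large `X` at least
`∑ φ(k) C_k - ε` and at most `∑ φ(s + 2 k) C_k + ε`; and so is the mean of `φ (rank)` at most
`∑ φ(s + 2 k) C_k + ε`. So ALL MOMENTS of the rank, and of `dim Ш[2]`, are bounded in the family, and the
upper average rank is at most `s + 2 ∑ k C_k < s + 1.5294`, less than `1.53` if `s = 0`; the average of
`rank + dim Ш[2]` is at least `∑ k C_k - ε > 0.7644`. Example: the twists of `X_0(14)`, where `s = 0`.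

The law of the coranks of the matrices (all `D ≤ X`) is the project GE/GDK of helper115: helper115 (plan,
descent, statements), helper171 (the lower bound for `2 ^ rank · #Ш[2]`), helper295, helper439, helper2,
helper643, helper674, helper234, helper158, helper998, helper798, helper756, helper79, helper958, helper388
(the law of the coranks of the matrices for a general modulus), helper796 (the bound of the rank by the
Selmer groups), helper739 (good primes). The law alone gives proportions and no bound for any average: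
a set of curves of proportion zero could have very large ranks. New here (helper79): the moments.
The mean number of elements of the kernel over the sets of primes without degenerate small part is at most
`2 + o(1)`, and the exceptional sets have a power of `log X` less elements while their coranks
are at most the number of primes.
-/

set_option autoImplicit false

open scoped Classical

namespace Pool.Agent.Results.MP_788af2_nt.AverageRankInTwistFamilies

open Filter Topology WeierstrassCurve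
open Pool.Agent.TH841.NF.D (Sha rk)

/-- the set `𝓕` of the problem -/
def F : Set (ℤ × ℤ) := {P | 4 * P.1 ^ 3 + 27 * P.2 ^ 2 ≠ 0 ∧
  ∀ p : ℕ, p.Prime → ¬ ((p : ℤ) ^ 4 ∣ P.1 ∧ (p : ℤ) ^ 6 ∣ P.2)}

/-- `E_{A,B}` -/
def E (A B : ℤ) : WeierstrassCurve ℚ := ⟨0, 0, 0, (A : ℚ), (B : ℚ)⟩

/-- the height of `E_{A,B}` -/
def H (A B : ℤ) : ℕ := max (4 * A.natAbs ^ 3) (27 * B.natAbs ^ 2)

/-- the derivative of `x³ + A x + B` at the root `e` -/
def b (A e : ℤ) : ℤ := 3 * e ^ 2 + A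

/-- the discriminant of the quadratic polynomial `(x³ + A x + B) / (x - e)` -/
def c (A e : ℤ) : ℤ := -(3 * e ^ 2 + 4 * A)

/-- the quartic of `d` for `y² = x³ + a x² + b x` has a nontrivial point over `K` -/
def Quartic (K : Type) [Field K] (a b d : ℤ) : Prop :=
  ∃ N M e : K, (M ≠ 0 ∨ e ≠ 0) ∧
    N ^ 2 = (d : K) * M ^ 4 + (a : K) * M ^ 2 * e ^ 2 + (b : K) / (d : K) * e ^ 4

/-- the Selmer group of the isogeny of degree two of `y² = x³ + a x² + b x` -/
def Sel (a b : ℤ) : Set ℤ :=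
  {d | Squarefree d ∧ Quartic ℝ a b d ∧ ∀ (p : ℕ) [Fact p.Prime], Quartic ℚ_[p] a b d}

/-- the Selmer rank of `E_{A,B}`, which is the curve `y² = x³ + 3 e x² + b x`, with the isogenous curve
`y² = x³ - 6 e x² + c x`: the product of the orders of the two Selmer groups is `2 ^ (s + 2)` -/
noncomputable def s (A e : ℤ) : ℕ :=
  Nat.log 2 ((Sel (3 * e) (b A e)).ncard * (Sel (-6 * e) (c A e)).ncard) - 2

/-- `n` is `1` modulo `8` and a nonzero square modulo the odd primes dividing `3 b c` -/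
def Res (A e : ℤ) (n : ℕ) : Prop := n % 8 = 1 ∧ ∀ l : ℕ, l.Prime → l ≠ 2 →
  (l : ℤ) ∣ 3 * b A e * c A e → ¬ l ∣ n ∧ IsSquare (n : ZMod l)

/-- the inert primes -/
def Inert (A e : ℤ) (q : ℕ) : Prop := q ≠ 2 ∧ q ≠ 3 ∧ ¬ IsSquare (b A e : ZMod q) ∧
  ¬ IsSquare (c A e : ZMod q)

/-- the class of the numbers `D` -/
def Class (A e : ℤ) (D : ℕ) : Prop := Squarefree D ∧ Res A e D ∧
  ∀ p ∈ D.primeFactors, Res A e p ∨ Inert A e p

/-- the twists of height at most `X` -/
noncomputable def Fam (A B e : ℤ) (X : ℕ) : Finset ℕ :=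
  (Finset.range (X + 1)).filter fun D => Class A e D ∧ H (A * D ^ 2) (B * D ^ 3) ≤ X

/-- the mean of a function of the curves over the twists of height at most `X` -/
noncomputable def mean (A B e : ℤ) (g : WeierstrassCurve ℚ → ℝ) (X : ℕ) : ℝ :=
  (∑ D ∈ Fam A B e X, g (E (A * D ^ 2) (B * D ^ 3))) / ((Fam A B e X).card : ℝ)

/-- the dimension of `Ш[2]` -/
noncomputable def shaDim (W : WeierstrassCurve ℚ) : ℕ :=
  Nat.log 2 (Nat.card {x : Sha W // 2 • x = 0})

/-- the constants -/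
noncomputable def C (k : ℕ) : ℝ :=
  (∏' i : ℕ, (1 - (1 / 2 : ℝ) ^ (2 * i + 1))) / ∏ i ∈ Finset.range k, ((2 : ℝ) ^ (i + 1) - 1)

/-- a nondecreasing function of polynomial growth -/
def Poly (φ : ℕ → ℝ) : Prop := Monotone φ ∧ ∃ (K : ℝ) (m : ℕ), ∀ n : ℕ, |φ n| ≤ K * ((n : ℝ) + 1) ^ m

section proof

open Pool.Agent.U79.MO (CX)
open Pool.Agent.U115.GE (twE cork)

variable {A B e : ℤ}

theorem isSq_iff {q : ℕ} (hq : q.Prime) (h3 : q ≠ 3) (x : ℤ) :
    IsSquare ((x * 9 ^ 2 : ℤ) : ZMod q) ↔ IsSquare (x : ZMod q) := by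
  have := Fact.mk hq
  have h9 : (9 : ZMod q) ≠ 0 := by
    intro h
    have h1 : ((9 : ℕ) : ZMod q) = 0 := by exact_mod_cast h
    rw [ZMod.natCast_eq_zero_iff] at h1
    have h2 : q ∣ 3 := hq.dvd_of_dvd_pow (show q ∣ 3 ^ 2 by norm_num; exact h1)
    exact h3 ((Nat.prime_dvd_prime_iff_eq hq Nat.prime_three).1 h2)
  push_cast
  constructor
  · rintro ⟨t, ht⟩
    refine ⟨t / 9, ?_⟩
    rw [div_mul_div_comm, eq_div_iff (mul_ne_zero h9 h9), ← ht]
    ring
  · rintro ⟨t, ht⟩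
    exact ⟨t * 9, by rw [ht]; ring⟩

theorem bad_iff {l : ℕ} (hl : l.Prime) : (l : ℤ) ∣ 3 * b A e * c A e ↔
    (l : ℤ) ∣ 81 * (3 * e ^ 2 + A) * ((27 * e) ^ 2 - 4 * (81 * (3 * e ^ 2 + A))) := by
  have hp := Nat.prime_iff_prime_int.1 hl
  have e1 : 81 * (3 * e ^ 2 + A) * ((27 * e) ^ 2 - 4 * (81 * (3 * e ^ 2 + A))) =
      3 ^ 8 * (b A e * c A e) := by
    unfold b c
    ring
  rw [e1, mul_assoc]
  constructor
  · intro h
    rcases hp.dvd_or_dvd h with h | h
    · exact (dvd_pow h (by norm_num)).mul_right _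
    · exact h.mul_left _
  · intro h
    rcases hp.dvd_or_dvd h with h | h
    · exact (hp.dvd_of_dvd_pow h).mul_right _
    · exact h.mul_left _

theorem res_iff (n : ℕ) : Res A e n ↔ Pool.Agent.U115.GE.Res (27 * e) (81 * (3 * e ^ 2 + A)) n := by
  refine and_congr_right fun _ => forall₂_congr fun l hl => forall_congr' fun _ => ?_
  rw [bad_iff hl]

theorem class_iff (D : ℕ) :
    Class A e D ↔ Pool.Agent.U115.GE.Class (27 * e) (81 * (3 * e ^ 2 + A)) D := by
  refine and_congr_right fun _ => and_congr (res_iff D) (forall₂_congr fun p hp => ?_)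
  have hpp := Nat.prime_of_mem_primeFactors hp
  refine or_congr ⟨fun h => ⟨hpp, (res_iff p).1 h⟩, fun h => (res_iff p).2 h.2⟩ ?_
  unfold Inert Pool.Agent.U115.GE.Inert
  rw [Pool.Agent.U79.MO.gc', Pool.Agent.U79.MO.gb']
  constructor
  · rintro ⟨h2, h3, h4, h5⟩
    exact ⟨hpp, h2, fun h => h4 ((isSq_iff hpp h3 _).1 h), fun h => h5 ((isSq_iff hpp h3 _).1 h)⟩
  · rintro ⟨-, h2, h4, h5⟩
    have h3 : p ≠ 3 := by
      rintro rfl
      apply h4
      have : (((3 * e ^ 2 + A) * 9 ^ 2 : ℤ) : ZMod 3) = 0 := by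
        push_cast
        have h81 : (81 : ZMod 3) = 0 := by decide
        rw [h81, mul_zero]
      rw [this]
      exact ⟨0, by norm_num⟩
    exact ⟨h2, h3, fun h => h4 ((isSq_iff hpp h3 _).2 h), fun h => h5 ((isSq_iff hpp h3 _).2 h)⟩

theorem class_good {D : ℕ} (h : Class A e D) :
    Pool.Agent.U79.TF.Good (27 * e) (81 * (3 * e ^ 2 + A)) D := by
  obtain ⟨h1, h2, -⟩ := (class_iff D).1 h
  have hbad : ∀ p : ℕ, p.Prime → p ∣ D → ¬ (p : ℤ) ∣ 81 * (3 * e ^ 2 + A) *
      ((27 * e) ^ 2 - 4 * (81 * (3 * e ^ 2 + A))) := by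
    intro p hp hpD hb
    have h4 : p ≠ 2 := by
      rintro rfl
      have := h2.1
      omega
    exact (h2.2 p hp h4 hb).1 hpD
  refine ⟨h1, fun p hp hpD => ⟨?_, ?_, ?_⟩⟩
  · have h4 : p ≠ 2 := by
      rintro rfl
      have := h2.1
      omega
    have h5 : p ≠ 3 := by
      rintro rfl
      exact hbad 3 hp hpD (((show (3 : ℤ) ∣ 81 by norm_num).mul_right _).mul_right _)
    have h6 : p ≠ 4 := by
      rintro rfl
      norm_num at hp
    have := hp.two_le
    omega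
  · intro h
    exact hbad p hp hpD (h.mul_right _)
  · intro h
    exact hbad p hp hpD (h.mul_left _)

/-- the largest `Y` with `Y ^ m * n ≤ X` -/
noncomputable def root (m n X : ℕ) : ℕ := Nat.findGreatest (fun Y => Y ^ m * n ≤ X) X

theorem le_root {m n : ℕ} (hm : m ≠ 0) (hn : 0 < n) (X D : ℕ) : D ≤ root m n X ↔ D ^ m * n ≤ X := by
  unfold root
  constructor
  · intro h
    have h1 : (Nat.findGreatest (fun Y => Y ^ m * n ≤ X) X) ^ m * n ≤ X := by
      have h0 : 0 ^ m * n ≤ X := by rw [zero_pow hm, zero_mul]; exact Nat.zero_le _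
      exact Nat.findGreatest_spec (P := fun Y => Y ^ m * n ≤ X) (Nat.zero_le X) h0
    exact (Nat.mul_le_mul_right n (Nat.pow_le_pow_left h m)).trans h1
  · intro h
    refine Nat.le_findGreatest ?_ h
    have h1 : D ≤ D ^ m := Nat.le_self_pow hm D
    exact (h1.trans (Nat.le_mul_of_pos_right _ hn)).trans h

theorem root_tendsto {m n : ℕ} (hm : m ≠ 0) (hn : 0 < n) : Tendsto (root m n) atTop atTop := by
  refine tendsto_atTop.2 fun b => ?_
  filter_upwards [eventually_ge_atTop (b ^ m * n)] with X hX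
  exact (le_root hm hn X b).2 hX

theorem height_eq (D : ℕ) : H (A * D ^ 2) (B * D ^ 3) = D ^ 6 * H A B :=
  Pool.Agent.U79.MO.height_mul A B D

theorem H_pos (hF : 4 * A ^ 3 + 27 * B ^ 2 ≠ 0) : 0 < H A B := by
  unfold H
  rw [Nat.pos_iff_ne_zero]
  intro h
  have h1 : 4 * A.natAbs ^ 3 = 0 := Nat.eq_zero_of_le_zero ((le_max_left _ _).trans h.le)
  have h2 : 27 * B.natAbs ^ 2 = 0 := Nat.eq_zero_of_le_zero ((le_max_right _ _).trans h.le)
  have h3 : A = 0 := by
    exact Int.natAbs_eq_zero.1 (pow_eq_zero_iff (by norm_num) |>.1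
      ((mul_eq_zero.1 h1).resolve_left (by norm_num)))
  have h4 : B = 0 := by
    exact Int.natAbs_eq_zero.1 (pow_eq_zero_iff (by norm_num) |>.1
      ((mul_eq_zero.1 h2).resolve_left (by norm_num)))
  apply hF
  rw [h3, h4]
  norm_num

theorem mem_fam (hH : 0 < H A B) (X D : ℕ) :
    D ∈ Fam A B e X ↔ Class A e D ∧ H (A * D ^ 2) (B * D ^ 3) ≤ X := by
  unfold Fam
  rw [Finset.mem_filter, Finset.mem_range]
  refine ⟨fun h => h.2, fun h => ⟨?_, h⟩⟩
  have h1 := h.2
  rw [height_eq] at h1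
  have h2 : D ≤ D ^ 6 := Nat.le_self_pow (by norm_num) D
  have h3 : D ^ 6 ≤ D ^ 6 * H A B := Nat.le_mul_of_pos_right _ hH
  omega

theorem fam_eq (hH : 0 < H A B) (X : ℕ) :
    Fam A B e X = CX (27 * e) (81 * (3 * e ^ 2 + A)) (root 6 (H A B) X) := by
  ext D
  rw [mem_fam hH, height_eq]
  unfold CX
  rw [Finset.mem_filter, Finset.mem_Icc, class_iff, le_root (by norm_num) hH]
  exact ⟨fun h => ⟨⟨Nat.pos_of_ne_zero h.1.1.ne_zero, h.2⟩, h.1⟩, fun h => ⟨h.2, h.1.2⟩⟩

theorem quartic_nine {K : Type} [Field K] [CharZero K] (a b d : ℤ) :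
    Quartic K (9 * a) (81 * b) d ↔ Quartic K a b d := by
  constructor
  · rintro ⟨N, M, e, h, h1⟩
    refine ⟨N, M, 3 * e, ?_, ?_⟩
    · rcases h with h | h
      · exact Or.inl h
      · exact Or.inr (mul_ne_zero (by norm_num) h)
    · rw [h1]
      push_cast
      ring
  · rintro ⟨N, M, e, h, h1⟩
    refine ⟨N, M, e / 3, ?_, ?_⟩
    · rcases h with h | h
      · exact Or.inl h
      · exact Or.inr (div_ne_zero h (by norm_num))
    · rw [h1]
      push_cast
      ring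

theorem sel_nine (a b : ℤ) : Sel (9 * a) (81 * b) = Sel a b := by
  ext d
  refine and_congr_right fun _ => and_congr (quartic_nine a b d) ?_
  exact forall₂_congr fun p hp => quartic_nine a b d

theorem sel2_eq : Pool.Agent.U79.TF.sel2 (27 * e) (81 * (3 * e ^ 2 + A)) =
    (Sel (3 * e) (b A e)).ncard * (Sel (-6 * e) (c A e)).ncard := by
  have h1 : Sel (27 * e) (81 * (3 * e ^ 2 + A)) = Sel (3 * e) (b A e) := by
    rw [← sel_nine (3 * e) (b A e)]
    unfold b
    congr 1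
    ring
  have h2 : Sel (-2 * (27 * e)) ((27 * e) ^ 2 - 4 * (81 * (3 * e ^ 2 + A))) =
      Sel (-6 * e) (c A e) := by
    rw [← sel_nine (-6 * e) (c A e)]
    unfold c
    congr 1 <;> ring
  rw [← h1, ← h2]
  rfl

theorem s_eq : s A e = Pool.Agent.U79.TF.sr (27 * e) (81 * (3 * e ^ 2 + A)) := by
  unfold s Pool.Agent.U79.TF.sr
  rw [sel2_eq]

theorem ne_of (hb : ¬ IsSquare (b A e)) (hc : ¬ IsSquare (c A e)) :
    81 * (3 * e ^ 2 + A) ≠ 0 ∧ (27 * e) ^ 2 - 4 * (81 * (3 * e ^ 2 + A)) ≠ 0 ∧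
    ¬ IsSquare (81 * (3 * e ^ 2 + A)) ∧ ¬ IsSquare ((27 * e) ^ 2 - 4 * (81 * (3 * e ^ 2 + A))) := by
  have h1 : ¬ IsSquare (81 * (3 * e ^ 2 + A)) := by
    rw [Pool.Agent.U79.MO.gb']
    exact fun h => hb (Pool.Agent.U79.TF.sq_cancel (by norm_num) h)
  have h2 : ¬ IsSquare ((27 * e) ^ 2 - 4 * (81 * (3 * e ^ 2 + A))) := by
    rw [Pool.Agent.U79.MO.gc']
    exact fun h => hc (Pool.Agent.U79.TF.sq_cancel (by norm_num) h)
  exact ⟨fun h => h1 ⟨0, by rw [h]; norm_num⟩, fun h => h2 ⟨0, by rw [h]; norm_num⟩, h1, h2⟩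

/-- the bounds for one curve -/
theorem bounds (he : e ^ 3 + A * e + B = 0) (hb : ¬ IsSquare (b A e)) (hc : ¬ IsSquare (c A e))
    {D : ℕ} (hD : Class A e D) : Finite {x : Sha (E (A * D ^ 2) (B * D ^ 3)) // 2 • x = 0} ∧
    cork (27 * e) (81 * (3 * e ^ 2 + A)) D ≤
      rk (E (A * D ^ 2) (B * D ^ 3)) + shaDim (E (A * D ^ 2) (B * D ^ 3)) ∧
    rk (E (A * D ^ 2) (B * D ^ 3)) + shaDim (E (A * D ^ 2) (B * D ^ 3)) ≤
      s A e + 2 * cork (27 * e) (81 * (3 * e ^ 2 + A)) D := by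
  obtain ⟨b0, c0, nb, nc⟩ := ne_of hb hc
  obtain ⟨h1, h2, h3⟩ := Pool.Agent.U79.MO.two_sided b0 c0 nb nc ((class_iff D).1 hD)
  obtain ⟨V, hV⟩ := Pool.Agent.U79.MO.sht_iso he hD.1.ne_zero
  obtain ⟨g1, g2, g3⟩ := Pool.Agent.U79.MO.iso_inv
    (Pool.Agent.U79.MO.twE_disc_ne b0 c0 hD.1.ne_zero) hV
  have eE : Pool.Agent.U79.TF.short (A * (D : ℤ) ^ 2) (B * (D : ℤ) ^ 3) =
      E (A * (D : ℤ) ^ 2) (B * (D : ℤ) ^ 3) := rfl
  rw [eE] at g1 g2 g3
  unfold Pool.Agent.U79.MO.ds at h2 h3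
  unfold shaDim
  rw [g1, g2] at h2 h3
  rw [s_eq]
  exact ⟨g3.1 h1, h2, h3⟩

theorem poly_low {φ : ℕ → ℝ} {K : ℝ} {m : ℕ} (h : ∀ n : ℕ, |φ n| ≤ K * ((n : ℝ) + 1) ^ m) (t : ℕ)
    (r : ℕ) (k : ℕ) (hk : 1 ≤ k) : |φ (t + r * k)| ≤ (K * ((t : ℝ) + r + 1) ^ m) * (k : ℝ) ^ m := by
  have hK : 0 ≤ K := by
    have := (abs_nonneg _).trans (h 0)
    simpa using this
  have hk' : (1 : ℝ) ≤ k := by exact_mod_cast hk
  have ht : (0 : ℝ) ≤ t := Nat.cast_nonneg _
  have hr : (0 : ℝ) ≤ r := Nat.cast_nonneg _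
  refine (h _).trans ?_
  rw [mul_assoc, ← mul_pow]
  refine mul_le_mul_of_nonneg_left ?_ hK
  refine pow_le_pow_left₀ (by positivity) ?_ m
  push_cast
  nlinarith

theorem phi_root (hb : ¬ IsSquare (b A e)) (hc : ¬ IsSquare (c A e)) (hH : 0 < H A B) {φ : ℕ → ℝ}
    {K : ℝ} {m : ℕ} (hφ : ∀ k : ℕ, 1 ≤ k → |φ k| ≤ K * (k : ℝ) ^ m) :
    (Summable fun k : ℕ => φ k * C k) ∧ Tendsto (fun X : ℕ => Pool.Agent.U79.MO.mean (Fam A B e X)
      fun D => φ (cork (27 * e) (81 * (3 * e ^ 2 + A)) D)) atTop (nhds (∑' k : ℕ, φ k * C k)) := by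
  obtain ⟨b0, c0, nb, nc⟩ := ne_of hb hc
  obtain ⟨h1, h2⟩ := Pool.Agent.U79.MO.phi_class (m := 1) (M := 1) nb nc one_ne_zero dvd_rfl hφ
  refine ⟨h1, ?_⟩
  have h3 := h2.comp (root_tendsto (m := 6) (by norm_num) hH)
  refine h3.congr fun X => ?_
  rw [fam_eq hH]
  simp only [Function.comp, mul_one, one_pow]

end proof

/-- **The average rank and all moments in the families of twists.** -/
theorem result (A B e : ℤ) (hF : (A, B) ∈ F) (he : e ^ 3 + A * e + B = 0)
    (hb : ¬ IsSquare (b A e)) (hc : ¬ IsSquare (c A e)) :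
    -- the family, and its order by height
    (∀ D : ℕ, Class A e D → (A * D ^ 2, B * D ^ 3) ∈ F ∧
      H (A * D ^ 2) (B * D ^ 3) = D ^ 6 * H A B ∧
      Finite {x : Sha (E (A * D ^ 2) (B * D ^ 3)) // 2 • x = 0}) ∧
    (∀ X D : ℕ, D ∈ Fam A B e X ↔ Class A e D ∧ H (A * D ^ 2) (B * D ^ 3) ≤ X) ∧
    Tendsto (fun X : ℕ => (Fam A B e X).card) atTop atTop ∧
    (Sel (3 * e) (b A e)).ncard * (Sel (-6 * e) (c A e)).ncard = 2 ^ (s A e + 2) ∧
    -- all moments
    (∀ φ : ℕ → ℝ, Poly φ →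
      (Summable fun k : ℕ => φ k * C k) ∧ (Summable fun k : ℕ => φ (s A e + 2 * k) * C k) ∧
      ∀ ε : ℝ, 0 < ε → ∃ X₀ : ℕ, ∀ X : ℕ, X₀ ≤ X →
        mean A B e (fun W => φ (rk W)) X ≤ (∑' k : ℕ, φ (s A e + 2 * k) * C k) + ε ∧
        mean A B e (fun W => φ (rk W + shaDim W)) X ≤
          (∑' k : ℕ, φ (s A e + 2 * k) * C k) + ε ∧
        (∑' k : ℕ, φ k * C k) - ε ≤ mean A B e (fun W => φ (rk W + shaDim W)) X) ∧
    -- the average
    (∃ X₀ : ℕ, ∀ X : ℕ, X₀ ≤ X →
      mean A B e (fun W => (rk W : ℝ)) X ≤ s A e + 1.5294 ∧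
      mean A B e (fun W => (rk W : ℝ) + shaDim W) X ≤ s A e + 1.5294 ∧
      0.7644 ≤ mean A B e (fun W => (rk W : ℝ) + shaDim W) X) ∧
    -- the constants
    HasSum C 1 ∧ 0.4194 < C 0 ∧ C 0 < 0.4195 ∧
    -- the curve `X_0(14)`
    (5805, -285714) ∈ F ∧ (39 : ℤ) ^ 3 + 5805 * 39 + -285714 = 0 ∧ ¬ IsSquare (b 5805 39) ∧
      ¬ IsSquare (c 5805 39) ∧ s 5805 39 = 0 := by
  obtain ⟨b0, c0, nb, nc⟩ := ne_of hb hc
  have hH : 0 < H A B := H_pos hF.1
  have hS := Pool.Agent.U79.TF.sel2_pow b0 c0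
  rw [sel2_eq, ← s_eq] at hS
  obtain ⟨-, -, -, k1, k2⟩ := Pool.Agent.Y948.CQ.t_C2
  set c₀ : ℝ := ∏' i : ℕ, (1 - (1 / 2 : ℝ) ^ (2 * i + 1)) with hc₀
  have e0 : C 0 = c₀ := by
    unfold C
    rw [Finset.range_zero, Finset.prod_empty, div_one]
  have k1' : (0.4194 : ℝ) < c₀ := k1
  have k2' : c₀ < 0.4195 := k2
  have hinf : Tendsto (fun X : ℕ => (Fam A B e X).card) atTop atTop := by
    refine ((Pool.Agent.U79.TF.class_many b0 c0).comp
      (root_tendsto (m := 6) (by norm_num) hH)).congr fun X => ?_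
    rw [fam_eq hH]
    rfl
  have hphi : ∀ φ : ℕ → ℝ, Poly φ →
      (Summable fun k : ℕ => φ k * C k) ∧ (Summable fun k : ℕ => φ (s A e + 2 * k) * C k) ∧
      ∀ ε : ℝ, 0 < ε → ∃ X₀ : ℕ, ∀ X : ℕ, X₀ ≤ X →
        mean A B e (fun W => φ (rk W)) X ≤ (∑' k : ℕ, φ (s A e + 2 * k) * C k) + ε ∧
        mean A B e (fun W => φ (rk W + shaDim W)) X ≤
          (∑' k : ℕ, φ (s A e + 2 * k) * C k) + ε ∧
        (∑' k : ℕ, φ k * C k) - ε ≤ mean A B e (fun W => φ (rk W + shaDim W)) X := by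
    rintro φ ⟨hmono, K, m, hK⟩
    obtain ⟨p1, p2⟩ := phi_root (A := A) (B := B) (e := e) hb hc hH (φ := φ)
      (K := K * ((0 : ℕ) + (1 : ℕ) + 1) ^ m) (m := m) (fun k hk => by
        have := poly_low hK 0 1 k hk
        rwa [zero_add, one_mul] at this)
    obtain ⟨q1, q2⟩ := phi_root (A := A) (B := B) (e := e) hb hc hH
      (φ := fun k => φ (s A e + 2 * k)) (m := m) (poly_low hK (s A e) 2)
    refine ⟨p1, q1, fun ε hε => ?_⟩
    obtain ⟨X₀, hX₀⟩ := eventually_atTop.1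
      ((p2.eventually (lt_mem_nhds (show (∑' k : ℕ, φ k * C k) - ε < ∑' k : ℕ, φ k * C k by
        linarith))).and (q2.eventually (gt_mem_nhds (show (∑' k : ℕ, φ (s A e + 2 * k) * C k) <
        (∑' k : ℕ, φ (s A e + 2 * k) * C k) + ε by linarith))))
    refine ⟨X₀, fun X hX => ?_⟩
    obtain ⟨r1, r2⟩ := hX₀ X hX
    have hcl : ∀ D ∈ Fam A B e X, Class A e D := fun D hD => ((mem_fam hH X D).1 hD).1
    refine ⟨?_, ?_, ?_⟩
    · refine le_trans (Pool.Agent.U79.MO.mean_mono fun D hD => hmono ?_) r2.le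
      have := (bounds he hb hc (hcl D hD)).2.2
      omega
    · exact le_trans (Pool.Agent.U79.MO.mean_mono fun D hD =>
        hmono (bounds he hb hc (hcl D hD)).2.2) r2.le
    · exact le_trans r1.le (Pool.Agent.U79.MO.mean_mono fun D hD =>
        hmono (bounds he hb hc (hcl D hD)).2.1)
  refine ⟨fun D hD => ?_, mem_fam hH, hinf, hS, hphi, ?_, Pool.Agent.U388.GD.t_SUMK, by rw [e0]; exact k1',
    by rw [e0]; exact k2', ?_, by norm_num, ?_, ?_, ?_⟩
  · refine ⟨⟨?_, ?_⟩, height_eq D, (bounds he hb hc hD).1⟩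
    · have h1 : 4 * (A * (D : ℤ) ^ 2) ^ 3 + 27 * (B * (D : ℤ) ^ 3) ^ 2 =
          (4 * A ^ 3 + 27 * B ^ 2) * (D : ℤ) ^ 6 := by ring
      show 4 * (A * (D : ℤ) ^ 2) ^ 3 + 27 * (B * (D : ℤ) ^ 3) ^ 2 ≠ 0
      rw [h1]
      exact mul_ne_zero hF.1 (pow_ne_zero 6 (by exact_mod_cast hD.1.ne_zero))
    · exact (class_good hD).minimal (Pool.Agent.U79.MO.g4 A e) (Pool.Agent.U79.MO.g6 he) hF.2
  · have hid : Poly fun n => (n : ℝ) := by
      refine ⟨fun x y h => ?_, 1, 1, fun n => ?_⟩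
      · show (x : ℝ) ≤ (y : ℝ)
        exact_mod_cast h
      rw [abs_of_nonneg (Nat.cast_nonneg n)]
      linarith
    obtain ⟨q1, q2, q3⟩ := hphi _ hid
    obtain ⟨m1, m2⟩ := Pool.Agent.U79.MO.mu_bounds q1
    have emu : Pool.Agent.U79.MO.mu = ∑' k : ℕ, (k : ℝ) * C k := rfl
    have es : (∑' k : ℕ, ((s A e + 2 * k : ℕ) : ℝ) * C k) = s A e + 2 * ∑' k : ℕ, (k : ℝ) * C k := by
      have h1 : HasSum (fun k : ℕ => (s A e : ℝ) * C k) ((s A e : ℝ) * 1) :=
        (Pool.Agent.U388.GD.t_SUMK : HasSum C 1).mul_left _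
      have h2 := h1.add (q1.hasSum.mul_left 2)
      rw [mul_one] at h2
      rw [← h2.tsum_eq]
      refine tsum_congr fun k => ?_
      push_cast
      ring
    obtain ⟨X₀, hX₀⟩ := q3 (min (Pool.Agent.U79.MO.mu - 0.7644)
      (2 * (0.7647 - Pool.Agent.U79.MO.mu))) (lt_min (by linarith) (by linarith))
    refine ⟨X₀, fun X hX => ?_⟩
    obtain ⟨r1, r2, r3⟩ := hX₀ X hX
    rw [es, ← emu] at r1 r2
    rw [← emu] at r3
    push_cast at r1 r2 r3
    have l1 := min_le_left (Pool.Agent.U79.MO.mu - 0.7644) (2 * (0.7647 - Pool.Agent.U79.MO.mu))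
    have l2 := min_le_right (Pool.Agent.U79.MO.mu - 0.7644) (2 * (0.7647 - Pool.Agent.U79.MO.mu))
    refine ⟨?_, ?_, ?_⟩ <;> linarith
  · refine ⟨by norm_num, ?_⟩
    rintro p hp ⟨h1, -⟩
    have h1' : (p : ℤ) ^ 4 ∣ (5805 : ℤ) := h1
    have h2 : p ^ 4 ∣ 5805 := by exact_mod_cast h1'
    have hp2 := hp.two_le
    have h3 : p ≤ 8 := by
      by_contra h
      have h4 : 9 ^ 4 ≤ p ^ 4 := Nat.pow_le_pow_left (by omega) 4
      have h5 := Nat.le_of_dvd (by norm_num) h2
      omega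
    clear h1 h1' hp
    interval_cases p <;> norm_num at h2
  · unfold b
    rintro ⟨t, ht⟩
    have h1 : t.natAbs * t.natAbs = 10368 := by
      have := congrArg Int.natAbs ht
      rw [Int.natAbs_mul] at this
      norm_num at this
      exact this.symm
    have h2 : t.natAbs ≤ 101 ∨ 102 ≤ t.natAbs := by omega
    rcases h2 with h2 | h2
    · have := Nat.mul_le_mul h2 h2
      omega
    · have := Nat.mul_le_mul h2 h2
      omega
  · unfold c
    rintro ⟨t, ht⟩
    have := mul_self_nonneg t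
    rw [← ht] at this
    norm_num at this
  · obtain ⟨s1, s2⟩ := Pool.Agent.U115.GE.sel_X14
    have s3 : (Sel 13 128).ncard = 2 := s1
    have s4 : (Sel (-2 * 13) (13 ^ 2 - 4 * 128)).ncard = 2 := s2
    have t1 : Sel (3 * 39) (b 5805 39) = Sel 13 128 := by
      rw [← sel_nine 13 128]
      unfold b
      norm_num
    have t2 : Sel (-6 * 39) (c 5805 39) = Sel (-2 * 13) (13 ^ 2 - 4 * 128) := by
      rw [← sel_nine (-2 * 13) (13 ^ 2 - 4 * 128)]
      unfold c
      norm_num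
    unfold s
    rw [t1, t2, s3, s4]
    have : Nat.log 2 (2 * 2) = 2 := by
      rw [show 2 * 2 = 2 ^ 2 by norm_num, Nat.log_pow (by norm_num)]
    rw [this]

end Pool.Agent.Results.MP_788af2_nt.AverageRankInTwistFamilies
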