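import Pool.Agent.Results.MP_6073f3_nt.SuccessivePrimeTwists
import Pool.Agent.U150.XG.Mom

/-!
# The average rank of the successive prime twists of every member of the twist classes of the elliptic
# curves with a rational point of order two

Setting and definitions of `MP_6073f3_nt.SuccessivePrimeTwists`: `E : y² = x³ + a x² + b x`, neither `b` nor
`a² - 4 b` a square, `E_N` its twist by `N`, `D` ANY product of different split and inert primes, `q_0, q_1, …`
given split or inert primes, `q_0` inert, `N = D p_k ⋯ p_0` with primes `p_i ≡ q_i` modulo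
`8 |b (a² - 4 b)|`, and iterated means over the `p_i`.

* The iterated mean of the Selmer rank `s(E_N)` exists and is `s(E) + 2 m`, `m` the mean of the Markov chain of
  that file after `t` steps (`t` is the number of the split primes among `q_1, …, q_k`).
* The iterated upper mean of the rank of `E_N(ℚ)` is at most `s(E) + 2 m`.
* `|m - κ| ≤ 4 ∏_{1 ≤ i ≤ n} (2 ^ i - 1) / 2 ^ t`, where `κ = ∑ r c_r ≤ 0.7649` is the mean of the limit law
  and `n` the number of the split prime factors of `D`. So, if infinitely many of the `q_i` are split, the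
  iterated upper mean of the rank is at most `s(E) + 1.53` for all large `k`, for every `D`.

Authors: helper150 (this file and `U150/XG`); helper687 (`U687/Q2`), helper115 and others (projects GD and GE),
as in `MP_6073f3_nt.SuccessivePrimeTwists`.
-/

set_option autoImplicit false

open scoped Classical ENNReal

namespace Pool.Agent.Results.MP_788af2_nt.AverageRankPrimeTwists

open Pool.Agent.TH841.NF.D (rk)
open Pool.Agent.Results.MP_6073f3_nt.SuccessivePrimeTwists (E s Res Member Given lowerMean upperMean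
  split splitSteps chain c)
open Filter

/-- the rank of `E_N` -/
noncomputable def rankOf (a b : ℤ) (N : ℕ) : ℝ≥0∞ := (rk (E (a * N) (b * N ^ 2)) : ℝ≥0∞)

/-- the Selmer rank of `E_N` -/
noncomputable def selmerRank (a b : ℤ) (N : ℕ) : ℝ≥0∞ :=
  ENNReal.ofReal (s (a * N) (b * N ^ 2) : ℝ)

/-- the mean of the Markov chain; the law is zero outside of the range of the sum -/
noncomputable def chainMean (a b : ℤ) (q : ℕ → ℕ) (k D : ℕ) : ℝ :=
  ∑ r ∈ Finset.range ((split a b D).card + splitSteps a b q k + 1), (r : ℝ) * chain a b q k D r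

/-- the mean of the limit law -/
noncomputable def limitMean : ℝ := ∑' r : ℕ, (r : ℝ) * c r

section proof

open Pool.Agent.Results.MP_6073f3_nt.SuccessivePrimeTwists (key low_of up_of lower_le_upper chain_eq
  c_eq steps_tendsto)
open Pool.Agent.U115.GE (cork)
open Pool.Agent.U150.XG (En MM exists_en ns mean kappa)
open Pool.Agent.U687.Q2 (ph UU TT mu)

variable {a b : ℤ}

theorem class_one : Pool.Agent.U115.GE.Class a b 1 :=
  ⟨squarefree_one, ⟨rfl, fun l hl _ _ => ⟨fun h => hl.one_lt.ne' (Nat.dvd_one.1 h), ⟨1, by simp⟩⟩⟩,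
    fun p hp => by simp at hp⟩

theorem s_nonneg (hb0 : b ≠ 0) (hc0 : a ^ 2 - 4 * b ≠ 0) : 0 ≤ s a b := by
  have h := (key hb0 hc0 (class_one (a := a) (b := b))).2
  have h1 : cork a b 1 = 0 := by
    unfold cork
    have : (Pool.Agent.U115.GE.spl a b 1).card = 0 := by
      unfold Pool.Agent.U115.GE.spl
      simp
    omega
  rw [h1] at h
  have h2 : (0 : ℤ) ≤ (rk (E (a * ((1 : ℕ) : ℤ)) (b * ((1 : ℕ) : ℤ) ^ 2)) : ℤ) :=
    Int.natCast_nonneg _
  omega

theorem limitMean_eq : limitMean = kappa := tsum_congr fun r => by rw [c_eq]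

theorem chainMean_eq (q : ℕ → ℕ) (k : ℕ) {D : ℕ}
    {P : Fin (D.primeFactors.filter (Pool.Agent.U115.GE.Res a b)).card → ℕ}
    (h : En (Pool.Agent.U115.GE.Res a b) D
      (D.primeFactors.filter (Pool.Agent.U115.GE.Res a b)).card P) :
    chainMean a b q k D = mean (MM (Pool.Agent.U115.GE.thetaG a b) D P)
      (ns (fun i => Pool.Agent.U115.GE.Res a b (q i)) k) := by
  unfold chainMean mean
  rw [chain_eq q k h]
  rfl

/-- the mean of an affine function -/
theorem ph_aff {n : ℕ} (A : Matrix (Fin n) (Fin n) (ZMod 2)) (t : ℕ) (x : ℝ) :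
    ph (UU^[t] (fun r => x + 2 * (r : ℝ))) A = x + 2 * mean A t := by
  rw [Pool.Agent.U150.XG.ph_law _ A t (n + t + 1) (by omega)]
  unfold mean
  rw [Finset.mul_sum]
  have h1 := Pool.Agent.U150.XG.law_sum A t (n + t + 1) (by omega)
  have h2 : ∀ r ∈ Finset.range (n + t + 1), (x + 2 * (r : ℝ)) * (TT^[t] (mu A)) r =
      x * (TT^[t] (mu A)) r + 2 * ((r : ℝ) * (TT^[t] (mu A)) r) := fun r _ => by ring
  rw [Finset.sum_congr rfl h2, Finset.sum_add_distrib, ← Finset.mul_sum, h1, mul_one]

end proof

/-- **The average rank of the successive prime twists.** -/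
theorem result (a b : ℤ) (hb : ¬ IsSquare b) (hc : ¬ IsSquare (a ^ 2 - 4 * b)) (q : ℕ → ℕ)
    (hq : Given a b q) :
    (∀ (k D : ℕ), Member a b D → Res a b (D * ∏ i ∈ Finset.range (k + 1), q i) →
      lowerMean a b q (selmerRank a b) (k + 1) D =
        ENNReal.ofReal (s a b + 2 * chainMean a b q k D) ∧
      upperMean a b q (selmerRank a b) (k + 1) D =
        ENNReal.ofReal (s a b + 2 * chainMean a b q k D) ∧
      upperMean a b q (rankOf a b) (k + 1) D ≤
        ENNReal.ofReal (s a b + 2 * chainMean a b q k D) ∧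
      |chainMean a b q k D - limitMean| ≤
        4 * ((∏ i ∈ Finset.range (split a b D).card, ((2 : ℝ) ^ (i + 1) - 1)) /
          2 ^ splitSteps a b q k)) ∧
    ((∃ᶠ i in atTop, Res a b (q i)) → ∀ D : ℕ, Member a b D → ∀ᶠ k in atTop,
      Res a b (D * ∏ i ∈ Finset.range (k + 1), q i) →
        upperMean a b q (rankOf a b) (k + 1) D ≤ ENNReal.ofReal (s a b + 1.53)) ∧
    limitMean ≤ 0.7649 := by
  have hb0 : b ≠ 0 := by
    rintro rfl
    exact hb ⟨0, by norm_num⟩
  have hc0 : a ^ 2 - 4 * b ≠ 0 := by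
    intro h
    exact hc ⟨0, by rw [h]; norm_num⟩
  have hs0 : (0 : ℝ) ≤ (s a b : ℝ) := by exact_mod_cast s_nonneg hb0 hc0
  have hG : ∀ r : ℕ, (0 : ℝ) ≤ (s a b : ℝ) + 2 * (r : ℝ) := fun r => by positivity
  have hk := Pool.Agent.U150.XG.kappa_num
  have main : ∀ (k D : ℕ), Member a b D → Res a b (D * ∏ i ∈ Finset.range (k + 1), q i) →
      lowerMean a b q (selmerRank a b) (k + 1) D =
        ENNReal.ofReal (s a b + 2 * chainMean a b q k D) ∧
      upperMean a b q (selmerRank a b) (k + 1) D =
        ENNReal.ofReal (s a b + 2 * chainMean a b q k D) ∧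
      upperMean a b q (rankOf a b) (k + 1) D ≤
        ENNReal.ofReal (s a b + 2 * chainMean a b q k D) ∧
      |chainMean a b q k D - limitMean| ≤
        4 * ((∏ i ∈ Finset.range (split a b D).card, ((2 : ℝ) ^ (i + 1) - 1)) /
          2 ^ splitSteps a b q k) := by
    intro k D hD hR
    obtain ⟨P, h⟩ := Pool.Agent.U150.XG.exists_en (Pool.Agent.U115.GE.Res a b) D
    have e1 := chainMean_eq q k h
    have hsel : ∀ N, Pool.Agent.U115.GE.Class a b N → selmerRank a b N =
        ENNReal.ofReal ((s a b : ℝ) + 2 * (Pool.Agent.U115.GE.cork a b N : ℝ)) := by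
      intro N hN
      unfold selmerRank
      congr 1
      have := (Pool.Agent.Results.MP_6073f3_nt.SuccessivePrimeTwists.key hb0 hc0 hN).1
      rw [this]
      push_cast
      ring
    have h1 := Pool.Agent.Results.MP_6073f3_nt.SuccessivePrimeTwists.low_of hb hc hq
      (selmerRank a b) (fun r => (s a b : ℝ) + 2 * (r : ℝ)) hG
      (fun N hN => (hsel N hN).ge) k hD hR h
    have h2 := Pool.Agent.Results.MP_6073f3_nt.SuccessivePrimeTwists.up_of hb hc hq
      (selmerRank a b) (fun r => (s a b : ℝ) + 2 * (r : ℝ)) hG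
      (fun N hN => (hsel N hN).le) k hD hR h
    have h3 := Pool.Agent.Results.MP_6073f3_nt.SuccessivePrimeTwists.up_of hb hc hq
      (rankOf a b) (fun r => (s a b : ℝ) + 2 * (r : ℝ)) hG
      (fun N hN => by
        have h4 := (Pool.Agent.Results.MP_6073f3_nt.SuccessivePrimeTwists.key hb0 hc0 hN).2
        unfold rankOf
        rw [← ENNReal.ofReal_natCast]
        refine ENNReal.ofReal_le_ofReal ?_
        exact_mod_cast h4) k hD hR h
    rw [ph_aff, ← e1] at h1 h2 h3
    have h4 := Pool.Agent.Results.MP_6073f3_nt.SuccessivePrimeTwists.lower_le_upper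
      (a := a) (b := b) q (selmerRank a b) (k + 1) D
    refine ⟨le_antisymm (h4.trans h2) h1, le_antisymm h2 (h1.trans h4), h3, ?_⟩
    rw [e1, limitMean_eq]
    exact Pool.Agent.U150.XG.mean_abs _ _
  refine ⟨main, fun hF D hD => ?_, ?_⟩
  · have hst := Pool.Agent.Results.MP_6073f3_nt.SuccessivePrimeTwists.steps_tendsto q hF
    set B : ℝ := ∏ i ∈ Finset.range (split a b D).card, ((2 : ℝ) ^ (i + 1) - 1) with hB
    have h3 : Tendsto (fun m : ℕ => 4 * (B / 2 ^ m)) atTop (nhds 0) := by
      have h4 := (tendsto_pow_atTop_nhds_zero_of_lt_one (r := (1 / 2 : ℝ)) (by norm_num)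
        (by norm_num)).const_mul (4 * B)
      rw [mul_zero] at h4
      refine h4.congr fun m => ?_
      rw [one_div, inv_pow]
      ring
    have h5 := (h3.comp hst).eventually_lt_const (show (0 : ℝ) < 0.0001 by norm_num)
    filter_upwards [h5] with k hk5 hR
    obtain ⟨-, -, h6, h7⟩ := main k D hD hR
    refine h6.trans (ENNReal.ofReal_le_ofReal ?_)
    have h8 : 4 * (B / 2 ^ splitSteps a b q k) < 0.0001 := hk5
    have h9 := (abs_le.1 h7).2
    rw [limitMean_eq] at h9
    norm_num at h8 hk ⊢
    linarith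
  · rw [limitMean_eq]
    exact hk

end Pool.Agent.Results.MP_788af2_nt.AverageRankPrimeTwists
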