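import Mathlib
import Pool.Agent.TH841.SH.ShaDef
import Pool.Agent.U409.SH.Tor
import Pool.Agent.U214.PT.ShaQ
import Pool.Agent.U214.UN.BoxT

/-!
# All moments of `2 ^ rank * #Ш[2]` for the values of binary forms at the points of a box

Let `A, B, D` be binary forms with integer coefficients, given by polynomials in one variable
(`hom f m n = n ^ deg f * f (m / n)`), `A`, `B` and `A - B` of the same degree, `D` of any degree,
`A B (A - B)` squarefree and each of its irreducible factors dividing `D` to an even power. For the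
curves `E_(m,n) : y² = x (x - A(m,n) D(m,n)) (x - B(m,n) D(m,n))` over `ℚ`, every `r` and every `K`,
the `r`-th moment of `2 ^ rank * #Ш[2]` over the coprime pairs `(m, n)` of a box
`(u, u + X] × (v, v + Y]` is at most `C (1 + log X) ^ kap`, uniformly in all boxes with
`|u| ≤ X ^ K` and `v + Y ≤ min(X, Y) ^ K`. Here `kap = kap r A B` depends only on the numbers of the
irreducible factors of `A`, `B` and `A - B`. It is `0` for all `r` if `A` and `B` are constant
(quadratic twists by the values of an arbitrary binary form), and for `r = 1` if the three numbers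
are equal.
-/

set_option autoImplicit false

namespace Pool.Agent.Results.MP_788af2_nt.FamiliesInBoxes

open Finset Polynomial
open Pool.Agent.TH841.SH.D (ShaTor rk)

/-- the curve `y² = x (x - a) (x - b)` over `ℚ` -/
def E (a b : ℤ) : WeierstrassCurve ℚ := ⟨0, -((a : ℚ) + b), 0, (a : ℚ) * b, 0⟩

/-- `2 ^ rank * #Ш[2]` for the elliptic curve `W` over `ℚ` (`ShaTor W 2` are the elements of the
Tate-Shafarevich group killed by `2`, `rk W` is the rank of the group of the rational points) -/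
noncomputable def M (W : WeierstrassCurve ℚ) : ℕ := 2 ^ rk W * Nat.card (ShaTor W 2)

/-- the value at `(m, n)` of the binary form of degree `deg f` with `f (t) = hom f t 1` -/
def hom (f : ℤ[X]) (m n : ℤ) : ℤ :=
  ∑ i ∈ range (f.natDegree + 1), f.coeff i * m ^ i * n ^ (f.natDegree - i)

/-- `f` as a polynomial over `ℚ` -/
noncomputable def q (f : ℤ[X]) : ℚ[X] := f.map (Int.castRingHom ℚ)

/-- the number of the irreducible factors of `f` over `ℚ` -/
noncomputable def n (f : ℤ[X]) : ℕ := (UniqueFactorizationMonoid.normalizedFactors (q f)).card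

/-- the exponent: the largest of `0` and the three numbers
`(2 ^ r - 1) * (n F - (n G + n H) / 2 ^ r)`, `{F, G, H} = {A, B, A - B}` -/
noncomputable def kap (r : ℕ) (A B : ℤ[X]) : ℝ :=
  max 0 (max (((2 : ℝ) ^ r - 1) * (n A - ((n B : ℝ) + n (A - B)) / 2 ^ r))
    (max (((2 : ℝ) ^ r - 1) * (n B - ((n A : ℝ) + n (A - B)) / 2 ^ r))
      (((2 : ℝ) ^ r - 1) * (n (A - B) - ((n A : ℝ) + n B) / 2 ^ r))))

/-- the coprime pairs `(m, n)` with `u < m ≤ u + X`, `v < n ≤ v + Y` and a nonsingular curve -/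
noncomputable def Box (A B D : ℤ[X]) (u : ℤ) (v X Y : ℕ) : Finset (ℤ × ℕ) :=
  ((Ioc u (u + X)) ×ˢ (Ioc v (v + Y))).filter (fun w : ℤ × ℕ =>
    IsCoprime w.1 (w.2 : ℤ) ∧ hom A w.1 w.2 * hom B w.1 w.2 * (hom A w.1 w.2 - hom B w.1 w.2) *
      hom D w.1 w.2 ≠ 0)

/-- the curve at the point `(m, n)` -/
noncomputable def Cur (A B D : ℤ[X]) (w : ℤ × ℕ) : WeierstrassCurve ℚ :=
  E (hom A w.1 w.2 * hom D w.1 w.2) (hom B w.1 w.2 * hom D w.1 w.2)

/-- All the moments of `2 ^ rank * #Ш[2]` over the boxes. -/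
theorem result (A B D : ℤ[X]) (hB : B.natDegree = A.natDegree)
    (hAB : (A - B).natDegree = A.natDegree) (hD : D ≠ 0) (hS : Squarefree (q (A * B * (A - B))))
    (hev : ∀ P : ℚ[X], Irreducible P → P ∣ q (A * B * (A - B)) → Even (multiplicity P (q D)))
    (r K : ℕ) : ∃ C : ℝ, ∀ X Y : ℕ, 1 ≤ X → 1 ≤ Y → ∀ v : ℕ, v + Y ≤ min X Y ^ K →
      ∀ u : ℤ, |u| ≤ (X : ℤ) ^ K →
      ∑ w ∈ Box A B D u v X Y, (M (Cur A B D w) : ℝ) ^ r ≤
        C * (X * Y * (1 + Real.log X) ^ kap r A B) ∧
      ∀ R : ℕ, (((Box A B D u v X Y).filter (fun w => 2 ^ R ≤ M (Cur A B D w))).card : ℝ) ≤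
          C / 2 ^ (r * R) * (X * Y * (1 + Real.log X) ^ kap r A B) := by
  classical
  obtain ⟨C, hC⟩ := Pool.Agent.U214.UN.famBox Pool.Agent.U214.GT.qq_QL hB hAB hD hS hev (r := r)
    (e := kap r A B) (le_max_left _ _)
    ((le_max_left _ _).trans (le_max_right _ _))
    ((le_max_left _ _).trans ((le_max_right _ _).trans (le_max_right _ _)))
    ((le_max_right _ _).trans ((le_max_right _ _).trans (le_max_right _ _))) K
  have hM : ∀ a b : ℤ, (Pool.Agent.U409.SH.qq a b : ℝ) = (M (E a b) : ℝ) := by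
    intro a b
    rw [Pool.Agent.U409.SH.qq_eq]
    exact congrArg (fun x : ℕ => (x : ℝ)) (Pool.Agent.U409.SH.Mn_eq _).symm
  have hC' : ∀ X Y : ℕ, 1 ≤ X → 1 ≤ Y → ∀ v : ℕ, v + Y ≤ min X Y ^ K →
      ∀ u : ℤ, |u| ≤ (X : ℤ) ^ K →
      ∑ w ∈ Box A B D u v X Y, (M (Cur A B D w) : ℝ) ^ r ≤
        C * (X * Y * (1 + Real.log X) ^ kap r A B) := fun X Y hX hY v hv u hu => by
    have h1 := hC X Y v u hX hY
      (hv.trans (Nat.pow_le_pow_left (min_le_left X Y) K))
      (hv.trans (Nat.pow_le_pow_left (min_le_right X Y) K)) (by zify; exact hu)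
    simp only [hM] at h1
    exact h1
  refine ⟨C, fun X Y hX hY v hv u hu => ⟨hC' X Y hX hY v hv u hu, fun R => ?_⟩⟩
  have h1 := hC' X Y hX hY v hv u hu
  rw [div_mul_eq_mul_div, le_div_iff₀ (by positivity)]
  refine le_trans ?_ h1
  rw [← nsmul_eq_mul, ← sum_const]
  refine (sum_le_sum fun t ht => ?_).trans (sum_le_sum_of_subset_of_nonneg (filter_subset _ _)
    fun t _ _ => pow_nonneg (Nat.cast_nonneg _) _)
  have h2 := (mem_filter.1 ht).2
  have h3 : (2 : ℝ) ^ R ≤ (M (Cur A B D t) : ℝ) := by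
    exact_mod_cast h2
  rw [mul_comm r R, pow_mul]
  exact pow_le_pow_left₀ (by positivity) h3 r

end Pool.Agent.Results.MP_788af2_nt.FamiliesInBoxes
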