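import Pool.Agent.U376.RC.Main

/-!
# Rank zero in every residue class and for every interval of `j`-invariants

Among ALL elliptic curves over `ℚ` (ordered by height) a positive proportion has coefficients in a given
residue class modulo a given `N`, `j`-invariant in a given open subinterval of `(0, 1728)`, a given sign of
`B`, and rank zero, even `E(ℚ) = 0`; and at the same time `E(Ω) = 0` for an infinite Galois extension `Ω` of
`ℚ` (depending on `E`) which contains a given finite Galois 2-extension `K` in which `2` is unramified and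
`√ℓ` for the primes `ℓ` in a set of positive lower density. So the quadratic twists `E_D` with `√D ∈ Ω`, for
example for all products `D` of such primes `ℓ`, have no rational points either.

The residue class is the one of integers `A₀`, `B₀` with `A₀` odd, `4 ∣ A₀ - B₀`, `x ^ 3 + A₀ x + B₀`
without zero modulo `3` (and modulo the prime divisors of a number `Δ` which depends on `K` only, `Δ = 1` for
`K = ℚ`), and such that `4 A₀ ^ 3 + 27 B₀ ^ 2` is not divisible by the square of a prime divisor of `N`.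
For `K = ℚ` and `N` prime to `6` every class modulo `N` with `4 A₀ ^ 3 + 27 B₀ ^ 2` prime to `N` contains such
integers. So no condition of this kind (and no condition on the real curve in the region `A > 0`) forces
a curve to have positive rank. Averages of Selmer groups over all curves do not give this: they do not
see the parity of the rank in a single class.

Proof. We consider pairs `(a, b)` in a part of the box `0 < a ≤ X ^ 2`, `|b| ≤ X ^ 3` (a small box of shapes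
inside the window), in the class of `(A₀, B₀)` modulo `4 N ^ 2` and modulo the primes which divide `3 Δ`, and in
the class of `(1, 0)` modulo the other primes up to a bound, with squarefree `4 a ^ 3 + 27 b ^ 2` and with
`x ^ 3 + a x + b` equal to `x (x ^ 2 + s)`, `- s` not a square, modulo `Q ∈ S`; now `S` consists of primes which are
`1` modulo `8 N` (and split in `K`). The sieve gives a lower bound for their number with a constant which
does not depend on `S`. By the lattice argument of project PQ most of these pairs are not bad, and each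
of them has a twist by a product `D` of primes in `S` which is good; twisting by `D = 1` modulo `N` preserves
the class, the `j`-invariant and the sign.

Library: projects PQ and PV (helper922 and helpers), `U693/UN` (helper693: all fields in the class at the same
time, Chebotarev).
-/

set_option autoImplicit false
set_option linter.all false

namespace Pool.Agent.Results.MP_788af2_nt.RankZeroEverywhereLocally

open Filter NumberField
open scoped Classical

/-- The equation `y ^ 2 = x ^ 3 + A x + B` with integers `A`, `B` defines an elliptic curve, and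
there is no prime `p` with `p ^ 4 ∣ A` and `p ^ 6 ∣ B`. Every elliptic curve over `ℚ` is isomorphic to
exactly one of these. -/
structure IsMinimal (A B : ℤ) : Prop where
  elliptic : 4 * A ^ 3 + 27 * B ^ 2 ≠ 0
  minimal : ∀ p : ℕ, p.Prime → ¬ ((p : ℤ) ^ 4 ∣ A ∧ (p : ℤ) ^ 6 ∣ B)

/-- The height. -/
def height (p : ℤ × ℤ) : ℤ := max (4 * |p.1| ^ 3) (27 * p.2 ^ 2)

/-- The set of all elliptic curves over `ℚ` of height at most `X`. -/
def Curves (X : ℕ) : Set (ℤ × ℤ) := {p | IsMinimal p.1 p.2 ∧ height p ≤ X}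

/-- The curve `y ^ 2 = x ^ 3 + A x + B` over `ℚ`, for `p = (A, B)`. -/
def curve (p : ℤ × ℤ) : WeierstrassCurve ℚ := ⟨0, 0, 0, (p.1 : ℚ), (p.2 : ℚ)⟩

/-- The quadratic twist by `D`: `(A, B)` becomes `(A D ^ 2, B D ^ 3)`. -/
def twist (D : ℤ) (p : ℤ × ℤ) : ℤ × ℤ := (p.1 * D ^ 2, p.2 * D ^ 3)

/-- The `j`-invariant `6912 A ^ 3 / (4 A ^ 3 + 27 B ^ 2)`. -/
noncomputable def jInv (p : ℤ × ℤ) : ℝ :=
  6912 * (p.1 : ℝ) ^ 3 / (4 * (p.1 : ℝ) ^ 3 + 27 * (p.2 : ℝ) ^ 2)

/-- `(A, B)` is congruent to `(A₀, B₀)` modulo `N`, `B` has the sign of `ε` and the `j`-invariant is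
between `j₁` and `j₂`. -/
structure InWindow (N : ℕ) (A₀ B₀ ε : ℤ) (j₁ j₂ : ℝ) (p : ℤ × ℤ) : Prop where
  classA : (N : ℤ) ∣ p.1 - A₀
  classB : (N : ℤ) ∣ p.2 - B₀
  sign : 0 < ε * p.2
  lower : j₁ < jInv p
  upper : jInv p < j₂

/-- The field `Ω` (a subfield of the algebraic closure of `ℚ`) is stable under all automorphisms, it
contains all images of `K` and `√ℓ` for the primes `ℓ` in a set of positive lower density, the curve
has no points over `Ω` except the point at infinity, and all quadratic twists by `D` with `√D ∈ Ω`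
have no rational points except the point at infinity. -/
structure GoodField (K : Type) [Field K] [NumberField K] (p : ℤ × ℤ)
    (Ω : Subfield (AlgebraicClosure ℚ)) : Prop where
  stable : ∀ σ : AlgebraicClosure ℚ →+* AlgebraicClosure ℚ, ∀ x ∈ Ω, σ x ∈ Ω
  contains : ∀ (φ : K →+* AlgebraicClosure ℚ) (x : K), φ x ∈ Ω
  many : ∃ δ : ℝ, 0 < δ ∧ ∀ᶠ Y : ℕ in atTop, δ * (Nat.primeCounting Y : ℝ) ≤
    (((Finset.range (Y + 1)).filter fun ℓ : ℕ => ℓ.Prime ∧
      ∀ r : AlgebraicClosure ℚ, r ^ 2 = (ℓ : AlgebraicClosure ℚ) → r ∈ Ω).card : ℝ)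
  noPoints : ∀ x ∈ Ω, ∀ y ∈ Ω,
    y ^ 2 ≠ x ^ 3 + (p.1 : AlgebraicClosure ℚ) * x + (p.2 : AlgebraicClosure ℚ)
  twists : ∀ D : ℤ, D ≠ 0 → (∃ r ∈ Ω, r ^ 2 = (D : AlgebraicClosure ℚ)) →
    Subsingleton (curve (twist D p)).toAffine.Point

/-- `E(ℚ) = 0`, so the rank is zero, and there is a field `Ω` as above. -/
structure Good (K : Type) [Field K] [NumberField K] (p : ℤ × ℤ) : Prop where
  zero : Subsingleton (curve p).toAffine.Point
  field : ∃ Ω : Subfield (AlgebraicClosure ℚ), GoodField K p Ω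

theorem crv_iff (X : ℕ) (p : ℤ × ℤ) : Pool.Agent.N922.PQ.Crv X p.1 p.2 ↔ p ∈ Curves X := by
  constructor
  · rintro ⟨h1, h2, h3, h4⟩
    exact ⟨⟨h1, h2⟩, max_le h3 h4⟩
  · rintro ⟨⟨h1, h2⟩, h3⟩
    exact ⟨h1, h2, (le_max_left _ _).trans h3, (le_max_right _ _).trans h3⟩

theorem nonempty {X : ℕ} (hX : 27 ≤ X) : ((1, 1) : ℤ × ℤ) ∈ Curves X := by
  refine ⟨⟨by norm_num, ?_⟩, ?_⟩
  · rintro p hp ⟨h, -⟩
    have h1 : ((p : ℤ)) ∣ 1 := (dvd_pow_self (p : ℤ) (by norm_num)).trans h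
    have h2 : p ∣ 1 := by exact_mod_cast h1
    exact hp.one_lt.ne' (Nat.dvd_one.1 h2)
  · have : height ((1, 1) : ℤ × ℤ) = 27 := by
      simp [height]
    rw [this]
    exact_mod_cast hX

/-- The points of a curve in terms of the equation. -/
theorem pts_iff {p : ℤ × ℤ} (hd : 4 * p.1 ^ 3 + 27 * p.2 ^ 2 ≠ 0) :
    Subsingleton (curve p).toAffine.Point ↔ ∀ x y : ℚ, y ^ 2 ≠ x ^ 3 + (p.1 : ℚ) * x + (p.2 : ℚ) := by
  have h := Pool.Agent.U693.UN.np_iff (curve p) rfl rfl rfl (by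
    show 4 * ((p.1 : ℚ)) ^ 3 + 27 * ((p.2 : ℚ)) ^ 2 ≠ 0
    exact_mod_cast hd)
  exact h

theorem jInv_of_shape {ε j₁ j₂ : ℝ} {p : ℤ × ℤ}
    (h : Pool.Agent.U376.RC.Shape ε j₁ j₂ p.1 p.2) : j₁ < jInv p ∧ jInv p < j₂ := by
  obtain ⟨h1, h2, h3, h4⟩ := h
  have hD : 0 < 4 * (p.1 : ℝ) ^ 3 + 27 * (p.2 : ℝ) ^ 2 := by positivity
  unfold jInv
  rw [lt_div_iff₀ hD, div_lt_iff₀ hD]
  exact ⟨h3, h4⟩

/-- Let `K / ℚ` be a Galois extension of degree `2 ^ n` in which `2` is unramified. There is a natural number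
`Δ ≥ 1`, with `Δ = 1` for `K = ℚ`, such that for all `N ≥ 1`, all integers `A₀`, `B₀` with `A₀` odd,
`4 ∣ A₀ - B₀`, `x ^ 3 + A₀ x + B₀` without zero modulo the prime divisors of `3 Δ` and
`4 A₀ ^ 3 + 27 B₀ ^ 2` not divisible by `p ^ 2` for the primes `p ∣ N`, all signs `ε` and all
`0 ≤ j₁ < j₂ ≤ 1728` there is `c > 0` such that for large `X` at least `c` times the number of ALL elliptic
curves over `ℚ` of height at most `X` are congruent to `(A₀, B₀)` modulo `N`, have `B` of sign `ε`,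
`j`-invariant in `(j₁, j₂)`, and are good: `E(ℚ) = 0`, and `E(Ω) = 0` for a field `Ω` as above. -/
theorem result (K : Type) [Field K] [NumberField K] [IsGalois ℚ K] (n : ℕ)
    (hn : Module.finrank ℚ K = 2 ^ n)
    (h2 : ∀ 𝔭 : Ideal (𝓞 K), 𝔭.IsPrime → (2 : 𝓞 K) ∉ 𝔭 ^ 2) :
    (∀ X : ℕ, (Curves X).Finite) ∧
    ∃ Δ : ℕ, 0 < Δ ∧ (Module.finrank ℚ K = 1 → Δ = 1) ∧
    ∀ (N : ℕ) (A₀ B₀ ε : ℤ) (j₁ j₂ : ℝ), 0 < N → Odd A₀ → (4 : ℤ) ∣ A₀ - B₀ →
    (∀ p : ℕ, p.Prime → p ∣ 3 * Δ → ∀ z : ℤ, ¬ (p : ℤ) ∣ z ^ 3 + A₀ * z + B₀) →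
    (∀ p : ℕ, p.Prime → p ∣ N → ¬ (p : ℤ) ^ 2 ∣ 4 * A₀ ^ 3 + 27 * B₀ ^ 2) →
    (ε = 1 ∨ ε = -1) → 0 ≤ j₁ → j₁ < j₂ → j₂ ≤ 1728 →
    ∃ c : ℝ, 0 < c ∧ ∀ᶠ X : ℕ in atTop, 0 < (Curves X).ncard ∧
      c * ((Curves X).ncard : ℝ) ≤
        (({p ∈ Curves X | InWindow N A₀ B₀ ε j₁ j₂ p ∧ Good K p}).ncard : ℝ) := by
  have hset : ∀ X : ℕ, Curves X = {p : ℤ × ℤ | Pool.Agent.N922.PQ.Crv X p.1 p.2} := by
    intro X
    ext p
    exact (crv_iff X p).symm
  have hfin : ∀ X : ℕ, (Curves X).Finite := fun X => by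
    rw [hset]
    exact Pool.Agent.N922.PQ.crv_fin X
  refine ⟨hfin, ?_⟩
  obtain ⟨Δ, hΔ0, hΔ1, hmain⟩ := Pool.Agent.U376.RC.mainL K hn h2
  obtain ⟨D, rfl⟩ : ∃ D : ℕ, Δ = (D : ℤ) := ⟨Δ.toNat, (Int.toNat_of_nonneg hΔ0.le).symm⟩
  refine ⟨D, by exact_mod_cast hΔ0, fun h => by exact_mod_cast hΔ1 h, ?_⟩
  intro N A₀ B₀ ε j₁ j₂ hN hA h4 hnz hsq hε hj0 hj hj1
  have hε' : (ε : ℝ) = 1 ∨ (ε : ℝ) = -1 := by
    rcases hε with rfl | rfl
    · left; norm_num
    · right; norm_num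
  obtain ⟨S, hS, c, hc, X₀, h⟩ := hmain (N : ℤ) A₀ B₀ (ε : ℝ) j₁ j₂ (by exact_mod_cast hN) hA h4
    (fun p hp hpd => hnz p hp (by exact_mod_cast hpd))
    (fun p hp hpd => hsq p hp (by exact_mod_cast hpd)) hε' hj0 hj hj1
  have hSp : ∀ Q ∈ S, Pool.Agent.N922.PQ.IsPr Q := fun Q hQ => (hS Q hQ).1
  have hS8 : ∀ Q ∈ S, Pool.Agent.N922.PQ.IsPr Q ∧ Q % 8 = 1 := fun Q hQ =>
    ⟨(hS Q hQ).1, (hS Q hQ).2.1⟩
  refine ⟨c, hc, ?_⟩
  filter_upwards [eventually_ge_atTop (max X₀ 27)] with X hX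
  refine ⟨(Set.ncard_pos (hfin X)).2 ⟨_, nonempty ((le_max_right _ _).trans hX)⟩, ?_⟩
  have h1 := (h X ((le_max_left _ _).trans hX)).2
  rw [← hset] at h1
  refine h1.trans ?_
  have h3 : {p : ℤ × ℤ | Pool.Agent.N922.PQ.Crv X p.1 p.2 ∧
      (Pool.Agent.U376.RC.Loc (N : ℤ) A₀ B₀ (ε : ℝ) j₁ j₂ p ∧
        Pool.Agent.U693.UN.InClass S p.1 p.2 K ∧
        (∀ z : ℤ, ¬ (2 : ℤ) ∣ z ^ 3 + p.1 * z + p.2) ∧
        ∀ (M : Type) [Field M] [NumberField M], Pool.Agent.U693.UN.InClass S p.1 p.2 M →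
          Pool.Agent.N922.PQ.GoodV (M := M) (𝓞 M) p)} ⊆
        {p ∈ Curves X | InWindow N A₀ B₀ ε j₁ j₂ p ∧ Good K p} := by
    rintro p ⟨hp, hloc, hK, hnz2, hgood⟩
    have hpC := (crv_iff X p).1 hp
    have hd : 4 * p.1 ^ 3 + 27 * p.2 ^ 2 ≠ 0 := hpC.1.elliptic
    -- no points over the fields in the class
    have hnp : ∀ (M : Type) [Field M] [NumberField M], Pool.Agent.U693.UN.InClass S p.1 p.2 M →
        ∀ x y : M, y ^ 2 ≠ x ^ 3 + (p.1 : M) * x + (p.2 : M) := by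
      intro M _ _ hM
      have key : ∀ W : WeierstrassCurve M,
          (Pool.Agent.N874.PP.sW (p.1 : M) (p.2 : M)).baseChange M = W →
          Subsingleton W.toAffine.Point := by
        rintro W rfl
        exact (hgood M hM).2.1
      have hs := key ⟨0, 0, 0, (p.1 : M), (p.2 : M)⟩ (by
        apply WeierstrassCurve.ext <;>
          simp [Pool.Agent.N874.PP.sW, WeierstrassCurve.baseChange])
      exact (Pool.Agent.U693.UN.np_iff (⟨0, 0, 0, (p.1 : M), (p.2 : M)⟩ : WeierstrassCurve M)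
        rfl rfl rfl (by
          show 4 * ((p.1 : M)) ^ 3 + 27 * ((p.2 : M)) ^ 2 ≠ 0
          exact_mod_cast hd)).1 hs
    obtain ⟨T, hT⟩ := Pool.Agent.U693.UN.om_field hSp
      ((IsAlgClosed.lift : K →ₐ[ℚ] AlgebraicClosure ℚ) : K →+* AlgebraicClosure ℚ) hK
    have hmem : ∀ x, x ∈ T ↔ x ∈ Pool.Agent.U693.UN.Om (AlgebraicClosure ℚ) S p.1 p.2 := by
      intro x
      rw [← hT]
      rfl
    have hno : ∀ x ∈ T, ∀ y ∈ T,
        y ^ 2 ≠ x ^ 3 + (p.1 : AlgebraicClosure ℚ) * x + (p.2 : AlgebraicClosure ℚ) := by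
      intro x hx y hy
      rw [hmem] at hx hy
      exact Pool.Agent.U693.UN.om_np hSp (fun M _ _ hM => hnp M hM) hx hy
    have htw : ∀ D : ℤ, D ≠ 0 → (∃ r ∈ T, r ^ 2 = (D : AlgebraicClosure ℚ)) →
        Subsingleton (curve (twist D p)).toAffine.Point := by
      rintro D hD ⟨r, hr, hr2⟩
      have hd' : 4 * (twist D p).1 ^ 3 + 27 * (twist D p).2 ^ 2 ≠ 0 := by
        have e : 4 * (twist D p).1 ^ 3 + 27 * (twist D p).2 ^ 2 =
            (4 * p.1 ^ 3 + 27 * p.2 ^ 2) * D ^ 6 := by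
          simp only [twist]
          ring
        rw [e]
        exact mul_ne_zero hd (pow_ne_zero _ hD)
      rw [pts_iff hd']
      intro x y he
      have hDc : (D : AlgebraicClosure ℚ) ≠ 0 := by exact_mod_cast hD
      have hr0 : r ≠ 0 := by
        rintro rfl
        apply hDc
        rw [← hr2]
        norm_num
      have hDT : (D : AlgebraicClosure ℚ) ∈ T := by
        rw [← hr2]
        exact pow_mem hr 2
      have hxT : ((x : ℚ) : AlgebraicClosure ℚ) ∈ T := SubfieldClass.ratCast_mem T x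
      have hyT : ((y : ℚ) : AlgebraicClosure ℚ) ∈ T := SubfieldClass.ratCast_mem T y
      apply hno ((x : AlgebraicClosure ℚ) / D) (div_mem hxT hDT)
        ((y : AlgebraicClosure ℚ) / (D * r)) (div_mem hyT (mul_mem hDT hr))
      have he' : ((y : ℚ) : AlgebraicClosure ℚ) ^ 2 = (x : AlgebraicClosure ℚ) ^ 3 +
          ((p.1 : AlgebraicClosure ℚ) * (D : AlgebraicClosure ℚ) ^ 2) * x +
          (p.2 : AlgebraicClosure ℚ) * (D : AlgebraicClosure ℚ) ^ 3 := by
        simp only [twist] at he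
        exact_mod_cast he
      have e1 : ((y : AlgebraicClosure ℚ) / (D * r)) ^ 2 =
          (y : AlgebraicClosure ℚ) ^ 2 / (D : AlgebraicClosure ℚ) ^ 3 := by
        rw [div_pow, mul_pow, hr2]
        congr 1
      rw [e1, he']
      field_simp
    refine ⟨hpC, ⟨hloc.1.1, hloc.1.2, ?_, (jInv_of_shape hloc.2).1, (jInv_of_shape hloc.2).2⟩,
      ?_, T, ?_, ?_, ?_, hno, htw⟩
    · have := hloc.2.2.1
      exact_mod_cast this
    · have := htw 1 one_ne_zero ⟨1, one_mem T, by norm_num⟩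
      have e : twist 1 p = p := by simp [twist]
      rwa [e] at this
    · intro σ x hx
      rw [hmem] at hx ⊢
      exact Pool.Agent.U693.UN.om_stable σ hx
    · intro φ x
      rw [hmem]
      exact ⟨K, inferInstance, inferInstance, φ, hK, x, rfl⟩
    · obtain ⟨δ, hδ, hev⟩ := Pool.Agent.U693.UN.dens S (fun Q hQ => (hSp Q hQ).2.ne_zero) hnz2
      refine ⟨δ, hδ, ?_⟩
      filter_upwards [hev] with Y hY
      refine hY.trans ?_
      have hsub : ((Finset.range (Y + 1)).filter fun ℓ => ℓ.Prime ∧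
          Pool.Agent.U693.UN.Tp p.1 p.2 S ℓ) ⊆ ((Finset.range (Y + 1)).filter fun ℓ => ℓ.Prime ∧
            ∀ r : AlgebraicClosure ℚ, r ^ 2 = (ℓ : AlgebraicClosure ℚ) → r ∈ T) := by
        intro ℓ hℓ
        rw [Finset.mem_filter] at hℓ ⊢
        have hq := Pool.Agent.U693.UN.quad_of_Tp hS8 hℓ.2.1 hℓ.2.2
        refine ⟨hℓ.1, hℓ.2.1, ?_⟩
        intro r hr
        rw [hmem]
        exact Pool.Agent.U693.UN.om_sqrt (d := (ℓ : ℤ)) (fun M _ _ r hr hgen => hq M r hr hgen)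
          (by rw [hr, Int.cast_natCast])
      exact_mod_cast Finset.card_le_card hsub
  have h4 := Set.ncard_le_ncard h3 ((hfin X).subset fun p hp => hp.1)
  exact_mod_cast h4

end Pool.Agent.Results.MP_788af2_nt.RankZeroEverywhereLocally
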